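import Pool.Agent.V11323.PPOdo

/-!
# A planar discrete point process with a transient walk
-/

set_option autoImplicit false

open MeasureTheory ProbabilityTheory Filter Topology
open scoped ENNReal NNReal

namespace Pool.Agent.Results.MP_4a7829_pr.TransientPlanar

open Pool.Agent.V11323.PP

/-! ### Return probabilities of the walk in coordinates -/

/-- return probability -/
noncomputable def ar (g : ℤ → ℕ) : ℕ → ℤ × ℤ → ℝ
  | 0, z => if z = 0 then 1 else 0
  | n + 1, z => 1 / 4 * (ar g n (stp g z 0) + ar g n (stp g z 1) + ar g n (stp g z 2) +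
      ar g n (stp g z 3))

lemma ar_nonneg (g : ℤ → ℕ) (n : ℕ) (z : ℤ × ℤ) : 0 ≤ ar g n z := by
  induction n generalizing z with
  | zero => unfold ar; split_ifs <;> norm_num
  | succ n ih =>
    unfold ar
    have h0 := ih (stp g z 0)
    have h1 := ih (stp g z 1)
    have h2 := ih (stp g z 2)
    have h3 := ih (stp g z 3)
    positivity

lemma prob_eq (g : ℤ → ℕ) (n : ℕ) (z : ℤ × ℤ) :
    dirLaw {ξ | crd g z ξ n = 0} = ENNReal.ofReal (ar g n z) := by
  induction n generalizing z with
  | zero =>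
    unfold ar crd
    split_ifs with h
    · simp [h]
    · simp [h]
  | succ n ih =>
    rw [first_step {ξ | crd g z ξ (n + 1) = 0}
      ((meas_crd g z (n + 1)) (measurableSet_singleton 0))]
    have h1 : ∀ e : Fin 4, dirLaw {ξ | cons e ξ ∈ {ξ | crd g z ξ (n + 1) = 0}} =
        ENNReal.ofReal (ar g n (stp g z e)) := by
      intro e
      rw [← ih]
      congr 1
      ext ξ
      simp only [Set.mem_ofPred_eq]
      rw [crd_cons]
    simp only [h1]
    have h2 : (1 / 4 : ℝ≥0∞) = ENNReal.ofReal (1 / 4) := by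
      rw [ENNReal.ofReal_div_of_pos (by norm_num)]
      simp
    rw [Fin.sum_univ_four, h2, ← ENNReal.ofReal_mul (by norm_num), ← ENNReal.ofReal_mul
      (by norm_num), ← ENNReal.ofReal_mul (by norm_num), ← ENNReal.ofReal_mul (by norm_num)]
    have h3 := ar_nonneg g n (stp g z 0)
    have h4 := ar_nonneg g n (stp g z 1)
    have h5 := ar_nonneg g n (stp g z 2)
    have h6 := ar_nonneg g n (stp g z 3)
    rw [← ENNReal.ofReal_add (by positivity) (by positivity),
      ← ENNReal.ofReal_add (by positivity) (by positivity),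
      ← ENNReal.ofReal_add (by positivity) (by positivity)]
    congr 1
    rw [ar]
    ring

/-! ### Fourier transform -/

/-- Fourier transform in the abscissa -/
noncomputable def Fr (g : ℤ → ℕ) : ℕ → ℤ → ℝ → ℂ
  | 0, i, _ => if i = 0 then 1 else 0
  | n + 1, i, θ => 1 / 4 * ((1 + Complex.exp ((θ * g i : ℝ) * Complex.I)) * Fr g n (i + 1) θ +
      (1 + Complex.exp (-((θ * g (i - 1) : ℝ) * Complex.I))) * Fr g n (i - 1) θ)

lemma Fr_cont (g : ℤ → ℕ) (n : ℕ) (i : ℤ) : Continuous (Fr g n i) := by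
  induction n generalizing i with
  | zero =>
    have : Fr g 0 i = fun _ => if i = 0 then 1 else 0 := rfl
    rw [this]
    exact continuous_const
  | succ n ih =>
    have : Fr g (n + 1) i = fun θ => 1 / 4 * ((1 + Complex.exp ((θ * g i : ℝ) * Complex.I)) *
        Fr g n (i + 1) θ + (1 + Complex.exp (-((θ * g (i - 1) : ℝ) * Complex.I))) *
          Fr g n (i - 1) θ) := rfl
    rw [this]
    have h1 := ih (i + 1)
    have h2 := ih (i - 1)
    fun_prop

lemma base_int (x : ℤ) : ∫ θ in (-Real.pi)..Real.pi, Complex.exp ((θ * x : ℝ) * Complex.I) =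
    if x = 0 then 2 * Real.pi else 0 := by
  split_ifs with h
  · subst h
    simp
    ring
  · have hc : ((x : ℂ) * Complex.I) ≠ 0 := by
      simp [h]
    have h1 : ∀ θ : ℝ, Complex.exp ((θ * x : ℝ) * Complex.I) =
        Complex.exp ((x * Complex.I) * θ) := by
      intro θ
      congr 1
      push_cast
      ring
    simp only [h1]
    rw [integral_exp_mul_complex hc]
    have h2 : Complex.exp ((x : ℂ) * Complex.I * (Real.pi : ℝ)) =
        Complex.exp ((x : ℂ) * Complex.I * ((-Real.pi : ℝ) : ℂ)) := by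
      rw [Complex.exp_eq_exp_iff_exists_int]
      exact ⟨x, by push_cast; ring⟩
    rw [h2, sub_self, zero_div]
    simp

lemma fourier (g : ℤ → ℕ) (n : ℕ) (i x : ℤ) :
    ∫ θ in (-Real.pi)..Real.pi, Fr g n i θ * Complex.exp ((θ * x : ℝ) * Complex.I) =
      2 * Real.pi * (ar g n (i, x) : ℝ) := by
  induction n generalizing i x with
  | zero =>
    unfold Fr ar
    by_cases hi : i = 0
    · simp only [hi, if_true, one_mul]
      rw [base_int]
      by_cases hx : x = 0
      · simp [hx]
      · simp [hx]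
    · simp [hi]
  | succ n ih =>
    have hcont : ∀ (m y : ℤ), Continuous (fun θ : ℝ => Fr g n m θ *
        Complex.exp ((θ * y : ℝ) * Complex.I)) := by
      intro m y
      have := Fr_cont g n m
      fun_prop
    have hint : ∀ (m y : ℤ), IntervalIntegrable (fun θ : ℝ => Fr g n m θ *
        Complex.exp ((θ * y : ℝ) * Complex.I)) volume (-Real.pi) Real.pi :=
      fun m y => (hcont m y).intervalIntegrable _ _
    have h1 : ∀ θ : ℝ, Fr g (n + 1) i θ * Complex.exp ((θ * x : ℝ) * Complex.I) =
        1 / 4 * ((Fr g n (i + 1) θ * Complex.exp ((θ * (x + g i : ℤ) : ℝ) * Complex.I) +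
          Fr g n (i + 1) θ * Complex.exp ((θ * x : ℝ) * Complex.I)) +
          (Fr g n (i - 1) θ * Complex.exp ((θ * (x - g (i - 1) : ℤ) : ℝ) * Complex.I) +
          Fr g n (i - 1) θ * Complex.exp ((θ * x : ℝ) * Complex.I))) := by
      intro θ
      have e1 : Complex.exp ((θ * (x + g i : ℤ) : ℝ) * Complex.I) =
          Complex.exp ((θ * g i : ℝ) * Complex.I) * Complex.exp ((θ * x : ℝ) * Complex.I) := by
        rw [← Complex.exp_add]
        congr 1
        push_cast
        ring
      have e2 : Complex.exp ((θ * (x - g (i - 1) : ℤ) : ℝ) * Complex.I) =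
          Complex.exp (-((θ * g (i - 1) : ℝ) * Complex.I)) *
            Complex.exp ((θ * x : ℝ) * Complex.I) := by
        rw [← Complex.exp_add]
        congr 1
        push_cast
        ring
      rw [e1, e2, Fr]
      ring
    simp only [h1]
    rw [intervalIntegral.integral_const_mul, intervalIntegral.integral_add
      ((hint _ _).add (hint _ _)) ((hint _ _).add (hint _ _)),
      intervalIntegral.integral_add (hint _ _) (hint _ _),
      intervalIntegral.integral_add (hint _ _) (hint _ _), ih, ih, ih, ih, ar]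
    have e0 : stp g (i, x) 0 = (i + 1, x + g i) := rfl
    have e1 : stp g (i, x) 1 = (i - 1, x - g (i - 1)) := rfl
    have e2 : stp g (i, x) 2 = (i + 1, x) := rfl
    have e3 : stp g (i, x) 3 = (i - 1, x) := rfl
    rw [e0, e1, e2, e3]
    push_cast
    ring

/-! ### Comparison with a killed one-dimensional walk -/

/-- survival factor of an edge -/
noncomputable def ce (g : ℤ → ℕ) (θ : ℝ) (i : ℤ) : ℝ := |Real.cos (θ * g i / 2)|

lemma ce_le_one (g : ℤ → ℕ) (θ : ℝ) (i : ℤ) : ce g θ i ≤ 1 := Real.abs_cos_le_one _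

lemma ce_nonneg (g : ℤ → ℕ) (θ : ℝ) (i : ℤ) : 0 ≤ ce g θ i := abs_nonneg _

lemma norm_one_add (α : ℝ) : ‖1 + Complex.exp ((α : ℝ) * Complex.I)‖ = 2 * |Real.cos (α / 2)| := by
  have h1 : 1 + Complex.exp ((α : ℝ) * Complex.I) =
      (2 * Real.cos (α / 2) : ℝ) * Complex.exp (((α / 2 : ℝ) : ℂ) * Complex.I) := by
    have h2 : Complex.exp ((α : ℝ) * Complex.I) =
        Complex.exp (((α / 2 : ℝ) : ℂ) * Complex.I) * Complex.exp (((α / 2 : ℝ) : ℂ) * Complex.I) := by
      rw [← Complex.exp_add]
      congr 1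
      push_cast
      ring
    rw [h2]
    push_cast
    rw [Complex.cos]
    have h3 : Complex.exp (((α : ℂ) / 2) * Complex.I) * Complex.exp (-((α : ℂ) / 2) * Complex.I) = 1 := by
      rw [← Complex.exp_add]
      simp
    linear_combination -h3
  rw [h1, norm_mul, Complex.norm_exp_ofReal_mul_I, mul_one, Complex.norm_real, Real.norm_eq_abs,
    abs_mul, abs_two]

/-- the killed walk -/
noncomputable def bb (g : ℤ → ℕ) (θ : ℝ) : ℕ → ℤ → ℝ
  | 0, i => if i = 0 then 1 else 0
  | n + 1, i => 1 / 2 * (ce g θ i * bb g θ n (i + 1) + ce g θ (i - 1) * bb g θ n (i - 1))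

lemma bb_nonneg (g : ℤ → ℕ) (θ : ℝ) (n : ℕ) (i : ℤ) : 0 ≤ bb g θ n i := by
  induction n generalizing i with
  | zero => unfold bb; split_ifs <;> norm_num
  | succ n ih =>
    unfold bb
    have h0 := ih (i + 1)
    have h1 := ih (i - 1)
    have h2 := ce_nonneg g θ i
    have h3 := ce_nonneg g θ (i - 1)
    positivity

lemma norm_Fr (g : ℤ → ℕ) (θ : ℝ) (n : ℕ) (i : ℤ) : ‖Fr g n i θ‖ ≤ bb g θ n i := by
  induction n generalizing i with
  | zero => unfold Fr bb; split_ifs <;> simp
  | succ n ih =>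
    rw [Fr, bb]
    have e1 : ‖1 + Complex.exp ((θ * g i : ℝ) * Complex.I)‖ = 2 * ce g θ i := norm_one_add _
    have e2 : ‖1 + Complex.exp (-((θ * g (i - 1) : ℝ) * Complex.I))‖ = 2 * ce g θ (i - 1) := by
      have h1 := norm_one_add (-(θ * g (i - 1)))
      have h2 : (((-(θ * g (i - 1)) : ℝ) : ℂ) * Complex.I) =
          -((θ * g (i - 1) : ℝ) * Complex.I) := by push_cast; ring
      rw [h2] at h1
      rw [h1, neg_div, Real.cos_neg]
      rfl
    calc ‖1 / 4 * ((1 + Complex.exp ((θ * g i : ℝ) * Complex.I)) * Fr g n (i + 1) θ +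
          (1 + Complex.exp (-((θ * g (i - 1) : ℝ) * Complex.I))) * Fr g n (i - 1) θ)‖
        ≤ 1 / 4 * (2 * ce g θ i * ‖Fr g n (i + 1) θ‖ +
            2 * ce g θ (i - 1) * ‖Fr g n (i - 1) θ‖) := by
          rw [norm_mul]
          have : ‖(1 / 4 : ℂ)‖ = 1 / 4 := by norm_num
          rw [this]
          refine mul_le_mul_of_nonneg_left ?_ (by norm_num)
          refine (norm_add_le _ _).trans ?_
          rw [norm_mul, norm_mul, e1, e2]
      _ ≤ 1 / 4 * (2 * ce g θ i * bb g θ n (i + 1) + 2 * ce g θ (i - 1) * bb g θ n (i - 1)) := by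
          have h1 := mul_le_mul_of_nonneg_left (ih (i + 1)) (ce_nonneg g θ i)
          have h2 := mul_le_mul_of_nonneg_left (ih (i - 1)) (ce_nonneg g θ (i - 1))
          linarith
      _ = _ := by ring

/-- superharmonic functions bound the Green function -/
lemma bb_sum_le (g : ℤ → ℕ) (θ : ℝ) (h : ℤ → ℝ) (h0 : ∀ i, 0 ≤ h i)
    (hs : ∀ i, (if i = 0 then 1 else 0) + 1 / 2 * (ce g θ i * h (i + 1) +
      ce g θ (i - 1) * h (i - 1)) ≤ h i) (N : ℕ) (i : ℤ) :
    ∑ n ∈ Finset.range N, bb g θ n i ≤ h i := by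
  induction N generalizing i with
  | zero => simpa using h0 i
  | succ N ih =>
    rw [Finset.sum_range_succ']
    refine le_trans ?_ (hs i)
    have h1 : ∑ n ∈ Finset.range N, bb g θ (n + 1) i =
        1 / 2 * (ce g θ i * ∑ n ∈ Finset.range N, bb g θ n (i + 1) +
          ce g θ (i - 1) * ∑ n ∈ Finset.range N, bb g θ n (i - 1)) := by
      simp only [bb, Finset.mul_sum, ← Finset.sum_add_distrib]
      
    have h2 : bb g θ 0 i = if i = 0 then 1 else 0 := rfl
    rw [h1, h2, add_comm]
    have h3 := mul_le_mul_of_nonneg_left (ih (i + 1)) (ce_nonneg g θ i)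
    have h4 := mul_le_mul_of_nonneg_left (ih (i - 1)) (ce_nonneg g θ (i - 1))
    linarith

/-- the explicit bound -/
lemma green_bound (g : ℤ → ℕ) (θ : ℝ) (j : ℕ) (hc : ce g θ j < 1) (N : ℕ) :
    ∑ n ∈ Finset.range N, bb g θ n 0 ≤ 2 * j + 2 / (1 - ce g θ j ^ 2) := by
  set c := ce g θ j with hcdef
  have hc0 : 0 ≤ c := ce_nonneg _ _ _
  have hc2 : 0 < 1 - c ^ 2 := by nlinarith
  set H : ℝ := 2 / (1 - c ^ 2) with hH
  have hHpos : 0 < H := by positivity
  have hHe : H * (1 - c ^ 2) = 2 := by
    rw [hH]; field_simp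
  have key := bb_sum_le g θ (fun i : ℤ => if i ≤ j then H + 2 * ((j : ℝ) - max (i : ℝ) 0)
    else c * H) (by
      intro i
      split_ifs with h1
      · have h2 : max (i : ℝ) 0 ≤ j := by
          apply max_le
          · exact_mod_cast h1
          · positivity
        linarith
      · positivity) (by
      intro i
      have ha := ce_nonneg g θ i
      have hb := ce_nonneg g θ (i - 1)
      have ha1 := ce_le_one g θ i
      have hb1 := ce_le_one g θ (i - 1)
      rcases lt_trichotomy i j with h1 | h1 | h1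
      · -- i < j
        rw [if_pos (show i + 1 ≤ (j : ℤ) by omega), if_pos (show i - 1 ≤ (j : ℤ) by omega),
          if_pos (show i ≤ (j : ℤ) by omega)]
        have h1' : (i : ℝ) + 1 ≤ j := by exact_mod_cast h1
        push_cast
        rcases lt_trichotomy i 0 with h2 | h2 | h2
        · have h2' : (i : ℝ) + 1 ≤ 0 := by exact_mod_cast h2
          rw [if_neg (by omega), max_eq_right (by linarith), max_eq_right (by linarith),
            max_eq_right (by linarith)]
          have hj : (0 : ℝ) ≤ j := by positivity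
          nlinarith
        · subst h2
          simp only [if_true, Int.cast_zero, zero_add, max_self, zero_sub]
          rw [max_eq_left (by norm_num : (0 : ℝ) ≤ 1), max_eq_right (by norm_num : (-1 : ℝ) ≤ 0)]
          have hj : (1 : ℝ) ≤ j := by linarith [h1', Int.cast_zero (R := ℝ)]
          rw [zero_sub] at hb hb1
          nlinarith
        · have h2' : (1 : ℝ) ≤ i := by exact_mod_cast h2
          rw [if_neg (by omega), max_eq_left (by linarith), max_eq_left (by linarith),
            max_eq_left (by linarith)]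
          nlinarith
      · -- i = j
        subst h1
        rw [if_neg (show ¬ ((j : ℤ) + 1 ≤ (j : ℤ)) by omega),
          if_pos (show (j : ℤ) - 1 ≤ (j : ℤ) by omega), if_pos le_rfl]
        rw [← hcdef]
        push_cast
        rcases Nat.eq_zero_or_pos j with h2 | h2
        · subst h2
          simp only [Nat.cast_zero, if_true, zero_sub, max_self]
          rw [max_eq_right (by norm_num : (-1 : ℝ) ≤ 0)]
          simp only [Nat.cast_zero, zero_sub] at hb hb1
          nlinarith
        · have h2' : (1 : ℝ) ≤ j := by exact_mod_cast h2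
          rw [if_neg (by omega), max_eq_left (by linarith), max_eq_left (by linarith)]
          nlinarith
      · -- i > j
        rw [if_neg (show ¬ (i + 1 ≤ (j : ℤ)) by omega), if_neg (show ¬ (i ≤ (j : ℤ)) by omega)]
        have hi0 : ¬ (i = 0) := by omega
        rw [if_neg hi0]
        by_cases h2 : i - 1 ≤ (j : ℤ)
        · have h3 : i = j + 1 := by omega
          rw [if_pos h2]
          have h4 : i - 1 = j := by omega
          have h5 : ce g θ (i - 1) = c := by rw [h4]
          rw [h5]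
          have h6 : max (((i - 1 : ℤ)) : ℝ) 0 = j := by
            rw [h4]
            push_cast
            exact max_eq_left (by positivity)
          rw [h6]
          have : 0 ≤ c * H := by positivity
          nlinarith
        · rw [if_neg h2]
          have : 0 ≤ c * H := by positivity
          nlinarith) N 0
  rw [if_pos (by omega)] at key
  simp only [Int.cast_zero, max_self, sub_zero] at key
  linarith

/-! ### Integration -/

lemma ce_sq (g : ℤ → ℕ) (θ : ℝ) (i : ℤ) :
    ce g θ i ^ 2 = (1 + Real.cos (θ * g i)) / 2 := by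
  unfold ce
  rw [sq_abs, Real.cos_sq]
  rw [show 2 * (θ * g i / 2) = θ * g i by ring]
  ring

/-- the gaps of size `4 ^ w` come early -/
def Hits (g : ℤ → ℕ) : Prop := ∀ w : ℕ, ∃ j : ℕ, j < 2 * 8 ^ w ∧ g j = 4 ^ w

lemma theta_bound (g : ℤ → ℕ) (hg : Hits g) (w : ℕ) (θ : ℝ)
    (h1 : Real.pi * (1 / 128) ^ (w + 1) < |θ|) (h2 : |θ| ≤ Real.pi * (1 / 128) ^ w) (N : ℕ) :
    ∑ n ∈ Finset.range N, bb g θ n 0 ≤ 65536 * 64 ^ w := by
  obtain ⟨j, hj, hgj⟩ := hg (2 * w)
  have hpi := Real.pi_pos
  have hgj' : (g j : ℝ) = 16 ^ w := by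
    rw [hgj, pow_mul]; norm_num
  -- the angle
  set α : ℝ := θ * g j with hα
  have habs : |α| = |θ| * 16 ^ w := by
    rw [hα, hgj', abs_mul, abs_of_pos (by positivity : (0 : ℝ) < 16 ^ w)]
  have h16 : (0 : ℝ) < 16 ^ w := by positivity
  have e1 : (1 / 128 : ℝ) ^ w * 16 ^ w = (1 / 8) ^ w := by
    rw [← mul_pow]; norm_num
  have ub : |α| ≤ Real.pi * (1 / 8) ^ w := by
    rw [habs, ← e1, ← mul_assoc]
    exact mul_le_mul_of_nonneg_right h2 h16.le
  have lb : Real.pi * ((1 / 128) * (1 / 8) ^ w) ≤ |α| := by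
    have := mul_le_mul_of_nonneg_right h1.le h16.le
    rw [habs]
    calc Real.pi * ((1 / 128) * (1 / 8) ^ w) =
        Real.pi * (1 / 128) ^ (w + 1) * 16 ^ w := by rw [← e1, pow_succ]; ring
      _ ≤ _ := this
  have ub' : |α| ≤ Real.pi := by
    refine ub.trans ?_
    have : (1 / 8 : ℝ) ^ w ≤ 1 := pow_le_one₀ (by norm_num) (by norm_num)
    nlinarith
  have hcos := Real.cos_le_one_sub_mul_cos_sq ub'
  have hsq : Real.pi ^ 2 * ((1 / 128) * (1 / 8) ^ w) ^ 2 ≤ α ^ 2 := by
    rw [← mul_pow, ← sq_abs α]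
    exact pow_le_pow_left₀ (by positivity) lb 2
  have hc2 : ((1 / 128) * (1 / 8 : ℝ) ^ w) ^ 2 ≤ 1 - ce g θ j ^ 2 := by
    rw [ce_sq]
    have h3 : 2 / Real.pi ^ 2 * (Real.pi ^ 2 * ((1 / 128) * (1 / 8) ^ w) ^ 2) ≤
        2 / Real.pi ^ 2 * α ^ 2 := mul_le_mul_of_nonneg_left hsq (by positivity)
    have h4 : 2 / Real.pi ^ 2 * (Real.pi ^ 2 * ((1 / 128) * (1 / 8) ^ w) ^ 2) =
        2 * ((1 / 128) * (1 / 8) ^ w) ^ 2 := by field_simp
    rw [h4] at h3
    linarith
  have hpos : 0 < ((1 / 128) * (1 / 8 : ℝ) ^ w) ^ 2 := by positivity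
  have hc0 := ce_nonneg g θ j
  have hc1 : ce g θ j < 1 := by nlinarith
  refine (green_bound g θ j hc1 N).trans ?_
  have h5 : 2 / (1 - ce g θ j ^ 2) ≤ 2 / ((1 / 128) * (1 / 8 : ℝ) ^ w) ^ 2 :=
    div_le_div_of_nonneg_left (by norm_num) hpos hc2
  have h6 : 2 / ((1 / 128) * (1 / 8 : ℝ) ^ w) ^ 2 = 32768 * 64 ^ w := by
    rw [mul_pow, ← pow_mul, mul_comm w 2, pow_mul]
    norm_num
    rw [div_pow, one_pow]
    field_simp
    norm_num
  have h7 : (j : ℝ) ≤ 2 * 64 ^ w := by
    have : j ≤ 2 * 64 ^ w := by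
      rw [pow_mul] at hj
      norm_num at hj
      exact hj.le
    exact_mod_cast this
  have h8 : (0 : ℝ) < 64 ^ w := by positivity
  rw [h6] at h5
  linarith

lemma bb_meas (g : ℤ → ℕ) (n : ℕ) (i : ℤ) : Continuous (fun θ => bb g θ n i) := by
  induction n generalizing i with
  | zero =>
    have : (fun θ => bb g θ 0 i) = fun _ => if i = 0 then 1 else 0 := rfl
    rw [this]
    exact continuous_const
  | succ n ih =>
    have : (fun θ => bb g θ (n + 1) i) = fun θ => 1 / 2 * (ce g θ i * bb g θ n (i + 1) +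
        ce g θ (i - 1) * bb g θ n (i - 1)) := rfl
    rw [this]
    have h1 := ih (i + 1)
    have h2 := ih (i - 1)
    unfold ce
    fun_prop

lemma int_bound (g : ℤ → ℕ) (hg : Hits g) (N : ℕ) :
    ∫⁻ θ in Set.Ioc (-Real.pi) Real.pi,
      ENNReal.ofReal (∑ n ∈ Finset.range N, bb g θ n 0) ≤
      ENNReal.ofReal (262144 * Real.pi) := by
  have hpi := Real.pi_pos
  set S : ℕ → Set ℝ := fun w => Set.Icc (-(Real.pi * (1 / 128) ^ w)) (Real.pi * (1 / 128) ^ w)
    with hS
  have h1 : ∀ θ ∈ Set.Ioc (-Real.pi) Real.pi, θ ≠ 0 →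
      ENNReal.ofReal (∑ n ∈ Finset.range N, bb g θ n 0) ≤
        ∑' w : ℕ, (S w).indicator (fun _ => ENNReal.ofReal (65536 * 64 ^ w)) θ := by
    intro θ hθ hne
    have h2 : 0 < |θ| / Real.pi := by positivity
    have h3 : |θ| / Real.pi ≤ 1 := by
      rw [div_le_one hpi, abs_le]
      exact ⟨hθ.1.le, hθ.2⟩
    obtain ⟨w, hw1, hw2⟩ := exists_nat_pow_near_of_lt_one h2 h3 (y := 1 / 128) (by norm_num)
      (by norm_num)
    rw [lt_div_iff₀ hpi, mul_comm] at hw1
    rw [div_le_iff₀ hpi, mul_comm] at hw2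
    have h4 := theta_bound g hg w θ hw1 hw2 N
    refine le_trans ?_ (ENNReal.le_tsum w)
    rw [Set.indicator_of_mem (by
      rw [hS]
      simp only [Set.mem_Icc]
      exact abs_le.mp hw2)]
    exact ENNReal.ofReal_le_ofReal h4
  calc ∫⁻ θ in Set.Ioc (-Real.pi) Real.pi,
      ENNReal.ofReal (∑ n ∈ Finset.range N, bb g θ n 0)
      ≤ ∫⁻ θ in Set.Ioc (-Real.pi) Real.pi,
        ∑' w : ℕ, (S w).indicator (fun _ => ENNReal.ofReal (65536 * 64 ^ w)) θ := by
        refine lintegral_mono_ae ?_
        rw [ae_restrict_iff' measurableSet_Ioc]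
        have h0 : ∀ᵐ θ : ℝ, θ ≠ 0 := by
          rw [ae_iff]
          simp
        filter_upwards [h0] with θ hθ hmem
        exact h1 θ hmem hθ
    _ ≤ ∫⁻ θ, ∑' w : ℕ, (S w).indicator (fun _ => ENNReal.ofReal (65536 * 64 ^ w)) θ :=
        setLIntegral_le_lintegral _ _
    _ = ∑' w : ℕ, ENNReal.ofReal (65536 * 64 ^ w) * volume (S w) := by
        rw [lintegral_tsum]
        · refine tsum_congr fun w => ?_
          rw [lintegral_indicator_const measurableSet_Icc]
        · intro w
          exact (measurable_const.indicator measurableSet_Icc).aemeasurable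
    _ = ∑' w : ℕ, ENNReal.ofReal (131072 * Real.pi * (1 / 2) ^ w) := by
        refine tsum_congr fun w => ?_
        rw [hS]
        simp only
        rw [Real.volume_Icc, ← ENNReal.ofReal_mul (by positivity)]
        congr 1
        have e1 : (64 : ℝ) ^ w * (1 / 128) ^ w = (1 / 2) ^ w := by
          rw [← mul_pow]; norm_num
        rw [← e1]
        ring
    _ = ENNReal.ofReal (∑' w : ℕ, 131072 * Real.pi * (1 / 2) ^ w) := by
        rw [ENNReal.ofReal_tsum_of_nonneg]
        · intro w; positivity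
        · exact (summable_geometric_of_lt_one (by norm_num) (by norm_num)).mul_left _
    _ = ENNReal.ofReal (262144 * Real.pi) := by
        rw [tsum_mul_left, tsum_geometric_of_lt_one (by norm_num) (by norm_num)]
        congr 1
        norm_num
        ring

lemma ar_sum (g : ℤ → ℕ) (hg : Hits g) (N : ℕ) :
    ∑ n ∈ Finset.range N, ar g n 0 ≤ 131072 := by
  have hpi := Real.pi_pos
  have h1 : ∀ n, 2 * Real.pi * ar g n 0 ≤ ∫ θ in (-Real.pi)..Real.pi, bb g θ n 0 := by
    intro n
    have h2 := fourier g n 0 0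
    have h3 : ‖(2 * Real.pi * (ar g n (0, 0) : ℝ) : ℂ)‖ = 2 * Real.pi * ar g n 0 := by
      have : (2 * Real.pi * (ar g n (0, 0) : ℝ) : ℂ) = ((2 * Real.pi * ar g n 0 : ℝ) : ℂ) := by
        push_cast
        rfl
      rw [this, Complex.norm_real, Real.norm_eq_abs, abs_of_nonneg]
      have := ar_nonneg g n 0
      positivity
    rw [← h3, ← h2]
    refine (intervalIntegral.norm_integral_le_integral_norm (by linarith)).trans ?_
    apply intervalIntegral.integral_mono_on (by linarith)
    · apply Continuous.intervalIntegrable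
      have := Fr_cont g n 0
      fun_prop
    · exact (bb_meas g n 0).intervalIntegrable _ _
    · intro θ _
      rw [norm_mul, Complex.norm_exp_ofReal_mul_I, mul_one]
      exact norm_Fr g θ n 0
  have h2 : 2 * Real.pi * ∑ n ∈ Finset.range N, ar g n 0 ≤
      ∫ θ in (-Real.pi)..Real.pi, ∑ n ∈ Finset.range N, bb g θ n 0 := by
    rw [intervalIntegral.integral_finsetSum (fun n _ => (bb_meas g n 0).intervalIntegrable _ _),
      Finset.mul_sum]
    exact Finset.sum_le_sum fun n _ => h1 n
  have h3 : ∫ θ in (-Real.pi)..Real.pi, ∑ n ∈ Finset.range N, bb g θ n 0 ≤ 262144 * Real.pi := by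
    rw [intervalIntegral.integral_of_le (by linarith),
      integral_eq_lintegral_of_nonneg_ae]
    · refine ENNReal.toReal_le_of_le_ofReal (by positivity) (int_bound g hg N)
    · exact Eventually.of_forall fun θ => Finset.sum_nonneg fun n _ => bb_nonneg g θ n 0
    · exact (continuous_finsetSum _ fun n _ => bb_meas g n 0).aestronglyMeasurable
  have h4 : 2 * Real.pi * ∑ n ∈ Finset.range N, ar g n 0 ≤ 2 * Real.pi * 131072 := by linarith
  exact le_of_mul_le_mul_left h4 (by positivity)

lemma transient_crd (g : ℤ → ℕ) (hg : Hits g) :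
    ∀ᵐ ξ ∂dirLaw, {n | crd g 0 ξ n = 0}.Finite := by
  have h1 : ∑' n, dirLaw {ξ | crd g 0 ξ n = 0} ≠ ⊤ := by
    have h2 : ∑' n, dirLaw {ξ | crd g 0 ξ n = 0} ≤ ENNReal.ofReal 131072 := by
      rw [ENNReal.tsum_eq_iSup_nat]
      refine iSup_le fun N => ?_
      simp only [prob_eq]
      rw [← ENNReal.ofReal_sum_of_nonneg (fun n _ => ar_nonneg g n 0)]
      exact ENNReal.ofReal_le_ofReal (ar_sum g hg N)
    exact ne_top_of_le_ne_top ENNReal.ofReal_ne_top h2
  have h2 := measure_setOfPred_frequently_eq_zero h1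
  rw [ae_iff]
  convert h2 using 2
  ext ξ
  simp only [Set.mem_ofPred_eq]
  rw [Nat.frequently_atTop_iff_infinite]
  rfl

/-- The walk on the process `Q` is almost surely transient (annealed law): for almost every
configuration `ω` under the law `palm Q` and almost every sequence of directions, the walk visits
the origin finitely often. -/
def TransientWalk (Q : Measure Env) : Prop :=
  ∀ᵐ ω ∂(palm Q), ∀ᵐ ξ ∂dirLaw, {n | pos ω ξ n = 0}.Finite

/-- There is a planar discrete point process whose random walk is almost surely transient. -/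
theorem result : ∃ Q : Measure Env, IsDPP Q ∧ TransientWalk Q := by
  refine ⟨QQ (GA Set.univ), QQ_dpp (meas_GA _) (GA_pos _) (GA_fin _), ?_⟩
  unfold TransientWalk
  have hA : MeasurableSet {p : Env × (ℕ → Fin 4) | {n | pos p.1 p.2 n = 0}.Finite} := by
    have h1 : {p : Env × (ℕ → Fin 4) | {n | pos p.1 p.2 n = 0}.Finite} =
        ⋃ N : ℕ, ⋂ n : ℕ, {p | N ≤ n → pos p.1 p.2 n ≠ 0} := by
      ext p
      simp only [Set.mem_ofPred_eq, Set.mem_iUnion, Set.mem_iInter]
      constructor
      · intro h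
        obtain ⟨N, hN⟩ := h.bddAbove
        refine ⟨N + 1, fun n hn h0 => ?_⟩
        have := hN (show n ∈ {n | pos p.1 p.2 n = 0} from h0)
        omega
      · rintro ⟨N, hN⟩
        refine (Set.finite_Iio N).subset fun n hn => ?_
        by_contra hc
        exact hN n (not_lt.mp hc) hn
    rw [h1]
    refine MeasurableSet.iUnion fun N => MeasurableSet.iInter fun n => ?_
    by_cases hn : N ≤ n
    · simp only [hn, true_imp_iff]
      exact ((meas_pos n) (measurableSet_singleton 0)).compl
    · simp only [hn, false_imp_iff]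
      exact MeasurableSet.univ
  refine palm_ae (meas_GA _) (GA_pos _) (GA_fin _)
    {p : Env × (ℕ → Fin 4) | {n | pos p.1 p.2 n = 0}.Finite} hA ?_
  refine Eventually.of_forall fun U => ?_
  have hg : Hits (fun i => GA Set.univ (U + i)) := by
    intro w
    obtain ⟨j, hj, hlev⟩ := exact_hit U w
    refine ⟨j, hj, ?_⟩
    simp only [GA]
    rw [Int.cast_natCast, if_pos (Set.mem_univ _), hlev]
  filter_upwards [transient_crd _ hg] with ξ hξ
  show {n | pos (env (GA Set.univ) 0 U) ξ n = 0}.Finite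
  simp only [pos_zero_iff (GA_pos Set.univ)]
  exact hξ

end Pool.Agent.Results.MP_4a7829_pr.TransientPlanar
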